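import Mathlib

/-!
# Context-free languages: inverse homomorphisms, complements of words

Binary derivation systems (a normal form of context-free grammars), after
`Pool/Agent/helper16/WZ/CF.lean`. Results: the preimage of a context-free language under a
homomorphism of free monoids is context-free, and so is the set of all words but one.
-/

set_option autoImplicit false

namespace Pool.Agent.helper83.HS

universe u v

/-- A binary derivation system: a state is erased (`nl`), reads a letter and continues in another
state (`rd`), or splits into two states (`sp`). -/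
structure Ds (T : Type u) where
  St : Type
  fin : Finite St
  nl : St → Prop
  rd : St → T → St → Prop
  sp : St → St → St → Prop

/-- The words derived from a state. -/
inductive Ds.Der {T : Type u} (S : Ds T) : S.St → List T → Prop
  | nl {β : S.St} : S.nl β → S.Der β []
  | rd {β γ : S.St} {a : T} {w : List T} : S.rd β a γ → S.Der γ w → S.Der β (a :: w)
  | sp {β α γ : S.St} {u v : List T} : S.sp β α γ → S.Der α u → S.Der γ v → S.Der β (u ++ v)

/-! ## From grammars to derivation systems -/

/-- the lists used as states -/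
def CF_G {T : Type u} (g : ContextFreeGrammar T) : Set (List (Symbol T g.NT)) :=
  {l | l = [Symbol.nonterminal g.initial] ∨ l = [] ∨ ∃ r ∈ g.rules, l <:+ r.output}

theorem CF_fin {T : Type u} (g : ContextFreeGrammar T) : (CF_G g).Finite := by
  have h : CF_G g ⊆ {[Symbol.nonterminal g.initial]} ∪ ({[]} ∪
      ⋃ r ∈ (g.rules : Set (ContextFreeRule T g.NT)), {l | l ∈ r.output.tails}) := by
    rintro l (h | h | ⟨r, hr, h⟩)
    · exact Or.inl h
    · exact Or.inr (Or.inl h)
    · refine Or.inr (Or.inr ?_)
      rw [Set.mem_iUnion₂]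
      exact ⟨r, hr, (List.mem_tails _ _).2 h⟩
  refine Set.Finite.subset ?_ h
  refine (Set.finite_singleton _).union ((Set.finite_singleton _).union ?_)
  refine Set.Finite.biUnion (Finset.finite_toSet _) (fun r _ => ?_)
  exact List.finite_toSet _

/-- a finite set of lists, numbered by a finite type in `Type` -/
noncomputable def CF_E {T : Type u} (g : ContextFreeGrammar T) :
    Fin (CF_fin g).toFinset.card ≃ {l // l ∈ CF_G g} :=
  ((CF_fin g).toFinset.equivFin.symm).trans
    (Equiv.subtypeEquivRight (fun l => (CF_fin g).mem_toFinset))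

/-- the derivation system -/
noncomputable def CF_S {T : Type u} (g : ContextFreeGrammar T) : Ds T where
  St := Fin (CF_fin g).toFinset.card
  fin := inferInstance
  nl β := (CF_E g β).1 = []
  rd β a γ := (CF_E g β).1 = Symbol.terminal a :: (CF_E g γ).1
  sp β α γ := ∃ r ∈ g.rules, (CF_E g β).1 = Symbol.nonterminal r.input :: (CF_E g γ).1 ∧
    (CF_E g α).1 = r.output

/-- derivations from lists -/
inductive CF_D {T : Type u} (g : ContextFreeGrammar T) : List (Symbol T g.NT) → List T → Prop
  | nil : CF_D g [] []
  | term (a : T) {γ : List (Symbol T g.NT)} {w : List T} : CF_D g γ w →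
      CF_D g (Symbol.terminal a :: γ) (a :: w)
  | nonterm (r : ContextFreeRule T g.NT) (hr : r ∈ g.rules) {γ : List (Symbol T g.NT)}
      {u v : List T} : CF_D g r.output u → CF_D g γ v →
      CF_D g (Symbol.nonterminal r.input :: γ) (u ++ v)

theorem CF_der {T : Type u} (g : ContextFreeGrammar T) (β : (CF_S g).St) (w : List T)
    (h : (CF_S g).Der β w) : g.Derives (CF_E g β).1 (w.map Symbol.terminal) := by
  induction h with
  | @nl β h =>
    have h' : (CF_E g β).1 = [] := h
    rw [h']
    exact Relation.ReflTransGen.refl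
  | @rd β γ a w h _ ih =>
    have h' : (CF_E g β).1 = Symbol.terminal a :: (CF_E g γ).1 := h
    rw [h']
    exact ih.append_left [Symbol.terminal a]
  | @sp β α γ u v h _ _ ih1 ih2 =>
    obtain ⟨r, hr, h1, h2⟩ := h
    rw [h1]
    have h3 : g.Derives (Symbol.nonterminal r.input :: (CF_E g γ).1)
        (r.output ++ (CF_E g γ).1) :=
      Relation.ReflTransGen.single ⟨r, hr, ContextFreeRule.Rewrites.head _⟩
    refine h3.trans ?_
    rw [← h2, List.map_append]
    exact (ih1.append_right _).trans (ih2.append_left _)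

theorem CF_split {T : Type u} (g : ContextFreeGrammar T) (v : List (Symbol T g.NT)) :
    ∀ (u : List (Symbol T g.NT)) (w : List T), CF_D g (u ++ v) w →
      ∃ w1 w2, w = w1 ++ w2 ∧ CF_D g u w1 ∧ CF_D g v w2 := by
  intro u
  induction u with
  | nil =>
    intro w h
    exact ⟨[], w, rfl, CF_D.nil, h⟩
  | cons x u ih =>
    intro w h
    rw [List.cons_append] at h
    cases h with
    | term a h =>
      obtain ⟨w1, w2, e, h1, h2⟩ := ih _ h
      exact ⟨a :: w1, w2, by rw [e]; rfl, CF_D.term a h1, h2⟩
    | nonterm r hr h1 h2 =>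
      rename_i u' v'
      obtain ⟨w1, w2, e, h3, h4⟩ := ih _ h2
      exact ⟨u' ++ w1, w2, by rw [e, List.append_assoc], CF_D.nonterm r hr h1 h3, h4⟩

theorem CF_rw {T : Type u} (g : ContextFreeGrammar T) (r : ContextFreeRule T g.NT)
    (hr : r ∈ g.rules) {u u' : List (Symbol T g.NT)} (h : r.Rewrites u u') :
    ∀ w, CF_D g u' w → CF_D g u w := by
  induction h with
  | head s =>
    intro w hw
    obtain ⟨w1, w2, e, h1, h2⟩ := CF_split g s _ w hw
    rw [e]
    exact CF_D.nonterm r hr h1 h2
  | cons x hrs ih =>
    intro w hw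
    cases hw with
    | term a h => exact CF_D.term a (ih _ h)
    | nonterm r' hr' h1 h2 => exact CF_D.nonterm r' hr' h1 (ih _ h2)

theorem CF_base {T : Type u} (g : ContextFreeGrammar T) (w : List T) :
    CF_D g (w.map Symbol.terminal) w := by
  induction w with
  | nil => exact CF_D.nil
  | cons a w ih => exact CF_D.term a ih

theorem CF_conv {T : Type u} (g : ContextFreeGrammar T) (u : List (Symbol T g.NT)) (w : List T)
    (h : g.Derives u (w.map Symbol.terminal)) : CF_D g u w := by
  induction h using Relation.ReflTransGen.head_induction_on with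
  | refl => exact CF_base g w
  | head h _ ih =>
    obtain ⟨r, hr, h⟩ := h
    exact CF_rw g r hr h w ih

theorem CF_tail {T : Type u} (g : ContextFreeGrammar T) (x : Symbol T g.NT)
    (γ : List (Symbol T g.NT)) (h : x :: γ ∈ CF_G g) : γ ∈ CF_G g := by
  rcases h with h | h | ⟨r, hr, h⟩
  · rw [List.cons.injEq] at h
    exact Or.inr (Or.inl h.2)
  · exact absurd h (by simp)
  · exact Or.inr (Or.inr ⟨r, hr, (List.suffix_cons x γ).trans h⟩)

theorem CF_fin' {T : Type u} (g : ContextFreeGrammar T) (l : List (Symbol T g.NT)) (w : List T)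
    (h : CF_D g l w) : ∀ hl : l ∈ CF_G g, (CF_S g).Der ((CF_E g).symm ⟨l, hl⟩) w := by
  induction h with
  | nil =>
    intro hl
    refine Ds.Der.nl ?_
    change (CF_E g _).1 = []
    rw [Equiv.apply_symm_apply]
  | @term a γ w _ ih =>
    intro hl
    have hγ := CF_tail g _ _ hl
    refine Ds.Der.rd (S := CF_S g) (γ := (CF_E g).symm ⟨γ, hγ⟩) ?_ (ih hγ)
    change (CF_E g _).1 = Symbol.terminal a :: (CF_E g _).1
    rw [Equiv.apply_symm_apply, Equiv.apply_symm_apply]
  | @nonterm r hr γ u v _ _ ih1 ih2 =>
    intro hl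
    have hγ := CF_tail g _ _ hl
    have hr' : r.output ∈ CF_G g := Or.inr (Or.inr ⟨r, hr, List.suffix_refl _⟩)
    refine Ds.Der.sp (S := CF_S g) (α := (CF_E g).symm ⟨r.output, hr'⟩)
      (γ := (CF_E g).symm ⟨γ, hγ⟩) ⟨r, hr, ?_, ?_⟩ (ih1 hr') (ih2 hγ)
    · rw [Equiv.apply_symm_apply, Equiv.apply_symm_apply]
    · rw [Equiv.apply_symm_apply]

theorem exists_ds {T : Type u} {L : Language T} (hL : L.IsContextFree) :
    ∃ (S : Ds T) (β : S.St), ∀ w : List T, w ∈ L ↔ S.Der β w := by
  obtain ⟨g, rfl⟩ := hL
  refine ⟨CF_S g, (CF_E g).symm ⟨[Symbol.nonterminal g.initial], Or.inl rfl⟩, fun w => ?_⟩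
  rw [ContextFreeGrammar.mem_language_iff]
  constructor
  · intro h
    exact CF_fin' g _ w (CF_conv g _ w h) _
  · intro h
    have := CF_der g _ w h
    rwa [Equiv.apply_symm_apply] at this

/-! ## From derivation systems to grammars -/

section back

variable {T : Type u} (S : Ds T)

/-- the rules of the grammar of a derivation system -/
def rulesSet : Set (ContextFreeRule T S.St) :=
  {r | (S.nl r.input ∧ r.output = []) ∨
    (∃ a γ, S.rd r.input a γ ∧ r.output = [Symbol.terminal a, Symbol.nonterminal γ]) ∨
    ∃ α γ, S.sp r.input α γ ∧ r.output = [Symbol.nonterminal α, Symbol.nonterminal γ]}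

theorem rulesSet_finite [Finite T] : (rulesSet S).Finite := by
  haveI := S.fin
  have h : rulesSet S ⊆ Set.range (fun β : S.St => (⟨β, []⟩ : ContextFreeRule T S.St)) ∪
      (Set.range (fun x : S.St × T × S.St => (⟨x.1,
        [Symbol.terminal x.2.1, Symbol.nonterminal x.2.2]⟩ : ContextFreeRule T S.St)) ∪
      Set.range (fun x : S.St × S.St × S.St => (⟨x.1,
        [Symbol.nonterminal x.2.1, Symbol.nonterminal x.2.2]⟩ : ContextFreeRule T S.St))) := by
    rintro ⟨i, o⟩ (⟨_, h⟩ | ⟨a, γ, _, h⟩ | ⟨α, γ, _, h⟩)
    · exact Or.inl ⟨i, by rw [show o = [] from h]⟩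
    · exact Or.inr (Or.inl ⟨(i, a, γ), by rw [show o = _ from h]⟩)
    · exact Or.inr (Or.inr ⟨(i, α, γ), by rw [show o = _ from h]⟩)
  exact Set.Finite.subset ((Set.finite_range _).union
    ((Set.finite_range _).union (Set.finite_range _))) h

/-- the grammar -/
noncomputable def gram [Finite T] (β : S.St) : ContextFreeGrammar T where
  NT := S.St
  initial := β
  rules := (rulesSet_finite S).toFinset

theorem gram_of_der [Finite T] (β₀ : S.St) (β : S.St) (w : List T) (h : S.Der β w) :
    (gram S β₀).Derives [Symbol.nonterminal β] (w.map Symbol.terminal) := by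
  have hstep : ∀ r : ContextFreeRule T S.St, r ∈ rulesSet S →
      (gram S β₀).Derives [Symbol.nonterminal r.input] r.output := by
    intro r hr
    refine Relation.ReflTransGen.single ⟨r, (rulesSet_finite S).mem_toFinset.2 hr, ?_⟩
    exact ContextFreeRule.Rewrites.input_output
  induction h with
  | @nl β h => exact hstep ⟨β, []⟩ (Or.inl ⟨h, rfl⟩)
  | @rd β γ a w h _ ih =>
    refine (hstep ⟨β, [Symbol.terminal a, Symbol.nonterminal γ]⟩
      (Or.inr (Or.inl ⟨a, γ, h, rfl⟩))).trans ?_
    exact ih.append_left [Symbol.terminal a]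
  | @sp β α γ u v h _ _ ih1 ih2 =>
    refine (hstep ⟨β, [Symbol.nonterminal α, Symbol.nonterminal γ]⟩
      (Or.inr (Or.inr ⟨α, γ, h, rfl⟩))).trans ?_
    rw [List.map_append]
    exact (ih1.append_right [Symbol.nonterminal γ]).trans (ih2.append_left _)

/-- the words obtained from a list of symbols -/
inductive Yl : List (Symbol T S.St) → List T → Prop
  | nil : Yl [] []
  | term (a : T) {γ : List (Symbol T S.St)} {w : List T} : Yl γ w →
      Yl (Symbol.terminal a :: γ) (a :: w)
  | nonterm (β : S.St) {γ : List (Symbol T S.St)} {u v : List T} : S.Der β u → Yl γ v →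
      Yl (Symbol.nonterminal β :: γ) (u ++ v)

theorem Yl_split (v : List (Symbol T S.St)) :
    ∀ (u : List (Symbol T S.St)) (w : List T), Yl S (u ++ v) w →
      ∃ w1 w2, w = w1 ++ w2 ∧ Yl S u w1 ∧ Yl S v w2 := by
  intro u
  induction u with
  | nil =>
    intro w h
    exact ⟨[], w, rfl, Yl.nil, h⟩
  | cons x u ih =>
    intro w h
    rw [List.cons_append] at h
    cases h with
    | term a h =>
      obtain ⟨w1, w2, e, h1, h2⟩ := ih _ h
      exact ⟨a :: w1, w2, by rw [e]; rfl, Yl.term a h1, h2⟩
    | nonterm β h1 h2 =>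
      rename_i u' v'
      obtain ⟨w1, w2, e, h3, h4⟩ := ih _ h2
      exact ⟨u' ++ w1, w2, by rw [e, List.append_assoc], Yl.nonterm β h1 h3, h4⟩

theorem Yl_rule (r : ContextFreeRule T S.St) (hr : r ∈ rulesSet S) (w : List T)
    (h : Yl S r.output w) : S.Der r.input w := by
  rcases hr with ⟨h1, h2⟩ | ⟨a, γ, h1, h2⟩ | ⟨α, γ, h1, h2⟩
  · rw [h2] at h
    cases h
    exact Ds.Der.nl h1
  · rw [h2] at h
    cases h with
    | term a h =>
      cases h with
      | nonterm β h3 h4 =>
        cases h4
        rw [List.append_nil]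
        exact Ds.Der.rd h1 h3
  · rw [h2] at h
    cases h with
    | nonterm β h3 h4 =>
      cases h4 with
      | nonterm β' h5 h6 =>
        cases h6
        rw [List.append_nil]
        exact Ds.Der.sp h1 h3 h5

theorem Yl_rw (r : ContextFreeRule T S.St) (hr : r ∈ rulesSet S) {u u' : List (Symbol T S.St)}
    (h : r.Rewrites u u') : ∀ w, Yl S u' w → Yl S u w := by
  induction h with
  | head s =>
    intro w hw
    obtain ⟨w1, w2, e, h1, h2⟩ := Yl_split S s _ w hw
    rw [e]
    exact Yl.nonterm _ (Yl_rule S r hr w1 h1) h2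
  | cons x hrs ih =>
    intro w hw
    cases hw with
    | term a h => exact Yl.term a (ih _ h)
    | nonterm β h1 h2 => exact Yl.nonterm β h1 (ih _ h2)

theorem Yl_base (w : List T) : Yl S (w.map Symbol.terminal) w := by
  induction w with
  | nil => exact Yl.nil
  | cons a w ih => exact Yl.term a ih

theorem Yl_conv [Finite T] (β₀ : S.St) (u : List (Symbol T S.St)) (w : List T)
    (h : (gram S β₀).Derives u (w.map Symbol.terminal)) : Yl S u w := by
  induction h using Relation.ReflTransGen.head_induction_on with
  | refl => exact Yl_base S w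
  | head h _ ih =>
    obtain ⟨r, hr, h⟩ := h
    exact Yl_rw S r ((rulesSet_finite S).mem_toFinset.1 hr) h w ih

/-- The language of a derivation system is context-free. -/
theorem isContextFree_of_ds [Finite T] (β : S.St) :
    Language.IsContextFree ({w | S.Der β w} : Language T) := by
  refine ⟨gram S β, ?_⟩
  ext w
  rw [ContextFreeGrammar.mem_language_iff]
  constructor
  · intro h
    have h1 : Yl S [Symbol.nonterminal β] w := Yl_conv S β _ w h
    change S.Der β w
    cases h1 with
    | nonterm β' h3 h4 =>
      cases h4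
      rw [List.append_nil]
      exact h3
  · intro h
    exact gram_of_der S β β w h

end back

/-! ## Inverse homomorphisms -/

section inv

variable {T : Type u} {A : Type} (h : A → List T)

/-- the pending words -/
abbrev Q : Type := Option (Σ a : A, Fin ((h a).length + 1))

/-- the letters which have still to be read -/
def rem : Q h → List T
  | none => []
  | some ⟨a, j⟩ => (h a).drop j

/-- the derivation system for the preimage -/
def invDs [Finite A] (S : Ds T) : Ds A where
  St := Option (Q h × S.St × Q h)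
  fin := by
    haveI := S.fin
    infer_instance
  nl
    | none => True
    | some (q, β, q') => S.nl β ∧ rem h q = rem h q'
  rd
    | some (q, β, q'), a, some (p, γ, p') =>
      γ = β ∧ p' = q' ∧ rem h q = [] ∧ rem h p = h a
    | _, _, _ => False
  sp
    | some (q, β, q'), some (p, α, p'), some (s, γ, s') =>
      S.sp β α γ ∧ p = q ∧ s = p' ∧ s' = q'
    | some (q, β, q'), none, some (s, γ, s') =>
      s' = q' ∧ ∃ t, S.rd β t γ ∧ rem h q = t :: rem h s
    | _, _, _ => False

variable [Finite A] (S : Ds T)

theorem inv_sound (x : (invDs h S).St) (u : List A) (hd : (invDs h S).Der x u) :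
    (x = none → u = []) ∧ ∀ q β q', x = some (q, β, q') →
      ∃ w, S.Der β w ∧ rem h q ++ u.flatMap h = w ++ rem h q' := by
  induction hd with
  | @nl x hx =>
    refine ⟨fun _ => rfl, ?_⟩
    rintro q β q' rfl
    have hx' : S.nl β ∧ rem h q = rem h q' := hx
    exact ⟨[], Ds.Der.nl hx'.1, by simpa using hx'.2⟩
  | @rd x y a w hx _ ih =>
    refine ⟨?_, ?_⟩
    · rintro rfl
      exact absurd hx (by simp [invDs])
    · rintro q β q' rfl
      match y, hx, ih with
      | some (p, γ, p'), hx, ih =>
        obtain ⟨rfl, rfl, h1, h2⟩ := hx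
        obtain ⟨w', h3, h4⟩ := ih.2 p _ _ rfl
        refine ⟨w', h3, ?_⟩
        rw [h1, List.nil_append, List.flatMap_cons, ← h2, h4]
      | none, hx, _ => exact absurd hx (by simp [invDs])
  | @sp x y z u v hx _ _ ih1 ih2 =>
    refine ⟨?_, ?_⟩
    · rintro rfl
      exact absurd hx (by simp [invDs])
    · rintro q β q' rfl
      match y, z, hx, ih1, ih2 with
      | some (p, α, p'), some (s, γ, s'), hx, ih1, ih2 =>
        obtain ⟨h0, rfl, rfl, rfl⟩ := hx
        obtain ⟨w1, h1, h2⟩ := ih1.2 _ _ _ rfl
        obtain ⟨w2, h3, h4⟩ := ih2.2 _ _ _ rfl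
        refine ⟨w1 ++ w2, Ds.Der.sp h0 h1 h3, ?_⟩
        rw [List.flatMap_append, ← List.append_assoc, h2, List.append_assoc, h4,
          List.append_assoc]
      | none, some (s, γ, s'), hx, ih1, ih2 =>
        obtain ⟨rfl, t, h1, h2⟩ := hx
        obtain ⟨w2, h3, h4⟩ := ih2.2 _ _ _ rfl
        have h5 := ih1.1 rfl
        subst h5
        refine ⟨t :: w2, Ds.Der.rd h1 h3, ?_⟩
        rw [List.nil_append, h2, List.cons_append, h4, List.cons_append]
      | none, none, hx, _, _ => exact absurd hx (by simp [invDs])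
      | some _, none, hx, _, _ => exact absurd hx (by simp [invDs])

/-- runs of the transducer -/
inductive LT : Q h → List T → Q h → List A → Prop
  | done {q q' : Q h} : rem h q = rem h q' → LT q [] q' []
  | out {q p q' : Q h} {a : A} {x : List T} {u : List A} : rem h q = [] → rem h p = h a →
      LT p x q' u → LT q x q' (a :: u)
  | eat {q p q' : Q h} {t : T} {x : List T} {u : List A} : rem h q = t :: rem h p →
      LT p x q' u → LT q (t :: x) q' u

omit [Finite A] in
theorem LT_split (x2 : List T) : ∀ {q : Q h} {x : List T} {q' : Q h} {u : List A},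
    LT h q x q' u → ∀ x1, x = x1 ++ x2 →
      ∃ p u1 u2, u = u1 ++ u2 ∧ LT h q x1 p u1 ∧ LT h p x2 q' u2 := by
  intro q x q' u hl
  induction hl with
  | @done q q' hq =>
    intro x1 hx
    have h1 := List.append_eq_nil_iff.1 hx.symm
    obtain ⟨rfl, rfl⟩ := h1
    exact ⟨q, [], [], rfl, LT.done rfl, LT.done hq⟩
  | @out q p q' a x u h1 h2 _ ih =>
    intro x1 hx
    obtain ⟨p', u1, u2, e, h3, h4⟩ := ih x1 hx
    exact ⟨p', a :: u1, u2, by rw [e]; rfl, LT.out h1 h2 h3, h4⟩
  | @eat q p q' t x u h1 h2 ih =>
    intro x1 hx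
    cases x1 with
    | nil =>
      rw [List.nil_append] at hx
      exact ⟨q, [], u, rfl, LT.done rfl, hx ▸ LT.eat h1 h2⟩
    | cons t' x1 =>
      rw [List.cons_append, List.cons.injEq] at hx
      obtain ⟨rfl, hx⟩ := hx
      obtain ⟨p', u1, u2, e, h3, h4⟩ := ih x1 hx
      exact ⟨p', u1, u2, e, LT.eat h1 h3, h4⟩

theorem inv_nl {β : S.St} (hβ : S.nl β) {q : Q h} {x : List T} {q' : Q h} {u : List A}
    (hl : LT h q x q' u) : x = [] → (invDs h S).Der (some (q, β, q')) u := by
  induction hl with
  | @done q q' hq =>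
    intro _
    exact Ds.Der.nl (show S.nl β ∧ _ from ⟨hβ, hq⟩)
  | @out q p q' a x u h1 h2 _ ih =>
    intro hx
    exact Ds.Der.rd (S := invDs h S) (β := (some (q, β, q') : (invDs h S).St)) (a := a)
      (γ := (some (p, β, q') : (invDs h S).St))
      (show β = β ∧ q' = q' ∧ rem h q = [] ∧ rem h p = h a from ⟨rfl, rfl, h1, h2⟩) (ih hx)
  | @eat q p q' t x u h1 h2 ih =>
    intro hx
    exact absurd hx (by simp)

theorem inv_rd {β γ : S.St} {t : T} {w : List T} (hβ : S.rd β t γ)
    (ih' : ∀ (q q' : Q h) (u : List A), LT h q w q' u → (invDs h S).Der (some (q, γ, q')) u)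
    {q : Q h} {x : List T} {q' : Q h} {u : List A}
    (hl : LT h q x q' u) : x = t :: w → (invDs h S).Der (some (q, β, q')) u := by
  induction hl with
  | @done q q' hq =>
    intro hx
    exact absurd hx (by simp)
  | @out q p q' a x u h1 h2 _ ih =>
    intro hx
    exact Ds.Der.rd (S := invDs h S) (β := (some (q, β, q') : (invDs h S).St)) (a := a)
      (γ := (some (p, β, q') : (invDs h S).St))
      (show β = β ∧ q' = q' ∧ rem h q = [] ∧ rem h p = h a from ⟨rfl, rfl, h1, h2⟩) (ih hx)
  | @eat q p q' t' x u h1 h2 ih =>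
    intro hx
    rw [List.cons.injEq] at hx
    obtain ⟨rfl, rfl⟩ := hx
    have h3 := ih' _ _ _ h2
    have h4 : (invDs h S).Der none [] := Ds.Der.nl (show True from trivial)
    have h5 := Ds.Der.sp (S := invDs h S) (β := (some (q, β, q') : (invDs h S).St))
      (α := (none : (invDs h S).St)) (γ := (some (p, γ, q') : (invDs h S).St))
      (show q' = q' ∧ ∃ t, S.rd β t γ ∧ rem h q = t :: rem h p from ⟨rfl, t', hβ, h1⟩) h4 h3
    simpa using h5

theorem inv_complete {β : S.St} {w : List T} (hd : S.Der β w) :
    ∀ (q q' : Q h) (u : List A), LT h q w q' u → (invDs h S).Der (some (q, β, q')) u := by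
  induction hd with
  | @nl β hβ =>
    intro q q' u hl
    exact inv_nl h S hβ hl rfl
  | @rd β γ t w hβ _ ih =>
    intro q q' u hl
    exact inv_rd h S hβ ih hl rfl
  | @sp β α γ w1 w2 hβ _ _ ih1 ih2 =>
    intro q q' u hl
    obtain ⟨p, u1, u2, e, h1, h2⟩ := LT_split h w2 hl w1 rfl
    rw [e]
    exact Ds.Der.sp (S := invDs h S) (β := (some (q, β, q') : (invDs h S).St))
      (α := (some (q, α, p) : (invDs h S).St)) (γ := (some (p, γ, q') : (invDs h S).St))
      (show S.sp β α γ ∧ q = q ∧ p = p ∧ q' = q' from ⟨hβ, rfl, rfl, rfl⟩)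
      (ih1 _ _ _ h1) (ih2 _ _ _ h2)

omit [Finite A] in
theorem LT_rem (x : List T) (q' : Q h) (u : List A) (h0 : ∀ p, rem h p = [] → LT h p x q' u) :
    ∀ (l : List T) (q : Q h), rem h q = l → LT h q (l ++ x) q' u := by
  intro l
  induction l with
  | nil =>
    intro q hq
    exact h0 q hq
  | cons t l ih =>
    intro q hq
    match q, hq with
    | none, hq => exact absurd hq (by simp [rem])
    | some ⟨a, j⟩, hq =>
      have hq' : (h a).drop j = t :: l := hq
      have hj : (j : ℕ) < (h a).length := by
        by_contra hcon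
        rw [List.drop_eq_nil_of_le (not_lt.1 hcon)] at hq'
        exact absurd hq' (by simp)
      have h1 : (h a).drop (j + 1) = l := by
        rw [← List.tail_drop, hq', List.tail_cons]
      have h2 : rem h (some ⟨a, ⟨j + 1, by omega⟩⟩) = l := h1
      exact LT.eat (by rw [h2]; exact hq) (ih _ h2)

omit [Finite A] in
theorem LT_full (u : List A) : ∀ (q q' : Q h), rem h q = [] → rem h q' = [] →
    LT h q (u.flatMap h) q' u := by
  induction u with
  | nil =>
    intro q q' hq hq'
    exact LT.done (by rw [hq, hq'])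
  | cons a u ih =>
    intro q q' hq hq'
    have h1 : rem h (some ⟨a, 0⟩) = h a := by simp [rem]
    refine LT.out hq h1 ?_
    rw [List.flatMap_cons]
    exact LT_rem h _ _ _ (fun p hp => ih p q' hp hq') _ _ h1

/-- Context-free languages are closed under inverse homomorphisms. -/
theorem isContextFree_preimage {L : Language T} (hL : L.IsContextFree) :
    Language.IsContextFree ({w | w.flatMap h ∈ L} : Language A) := by
  obtain ⟨S, β, hS⟩ := exists_ds hL
  have h1 : ({w | w.flatMap h ∈ L} : Language A) =
      {w | (invDs h S).Der (some (none, β, none)) w} := by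
    ext w
    change w.flatMap h ∈ L ↔ (invDs h S).Der (some (none, β, none)) w
    rw [hS]
    constructor
    · intro hd
      exact inv_complete h S hd _ _ _ (LT_full h w none none rfl rfl)
    · intro hd
      obtain ⟨x, h2, h3⟩ := (inv_sound h S _ _ hd).2 _ _ _ rfl
      have h4 : w.flatMap h = x := by
        have : [] ++ w.flatMap h = x ++ [] := h3
        simpa using this
      rw [h4]
      exact h2
  rw [h1]
  exact isContextFree_of_ds (invDs h S) _

end inv

/-! ## All words but one -/

section ne

variable {T : Type u} (w₀ : List T)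

/-- the derivation system for the words different from `w₀` -/
def neDs : Ds T where
  St := Option (Fin (w₀.length + 1))
  fin := inferInstance
  nl
    | none => True
    | some j => w₀.drop j ≠ []
  rd
    | none, _, none => True
    | none, _, some _ => False
    | some j, a, none => ∀ l, w₀.drop j ≠ a :: l
    | some j, a, some i => w₀.drop j = a :: w₀.drop i
  sp _ _ _ := False

theorem ne_none (w : List T) : (neDs w₀).Der none w := by
  induction w with
  | nil => exact Ds.Der.nl (show True from trivial)
  | cons a w ih =>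
    exact Ds.Der.rd (S := neDs w₀) (β := (none : (neDs w₀).St)) (a := a)
      (γ := (none : (neDs w₀).St)) (show True from trivial) ih

theorem ne_sound (x : (neDs w₀).St) (w : List T) (hd : (neDs w₀).Der x w) :
    ∀ j, x = some j → w ≠ w₀.drop j := by
  induction hd with
  | @nl x hx =>
    rintro j rfl
    exact Ne.symm hx
  | @rd x y a w hx _ ih =>
    rintro j rfl
    match y, hx, ih with
    | none, hx, _ => exact fun hcon => hx w hcon.symm
    | some i, hx, ih =>
      have hx' : w₀.drop j = a :: w₀.drop i := hx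
      rw [hx']
      intro hcon
      rw [List.cons.injEq] at hcon
      exact ih i rfl hcon.2
  | @sp x y z u v hx _ _ _ _ => exact absurd hx (by simp [neDs])

theorem ne_complete (w : List T) : ∀ j : Fin (w₀.length + 1), w ≠ w₀.drop j →
    (neDs w₀).Der (some j) w := by
  induction w with
  | nil =>
    intro j hj
    exact Ds.Der.nl (show w₀.drop j ≠ [] from Ne.symm hj)
  | cons a w ih =>
    intro j hj
    by_cases hc : ∃ l, w₀.drop j = a :: l
    · obtain ⟨l, hl⟩ := hc
      have hj' : (j : ℕ) < w₀.length := by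
        by_contra hcon
        rw [List.drop_eq_nil_of_le (not_lt.1 hcon)] at hl
        exact absurd hl (by simp)
      have h1 : w₀.drop (j + 1) = l := by
        rw [← List.tail_drop, hl, List.tail_cons]
      have h2 : w ≠ w₀.drop (j + 1) := by
        rw [h1]
        intro hcon
        exact hj (by rw [hl, hcon])
      exact Ds.Der.rd (S := neDs w₀) (β := (some j : (neDs w₀).St)) (a := a)
        (γ := (some ⟨j + 1, by omega⟩ : (neDs w₀).St))
        (show w₀.drop j = a :: w₀.drop (j + 1) by rw [h1, hl]) (ih ⟨j + 1, by omega⟩ h2)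
    · exact Ds.Der.rd (S := neDs w₀) (β := (some j : (neDs w₀).St)) (a := a)
        (γ := (none : (neDs w₀).St))
        (show ∀ l, w₀.drop j ≠ a :: l from fun l hl => hc ⟨l, hl⟩) (ne_none w₀ w)

/-- The set of all words but one is context-free. -/
theorem isContextFree_ne [Finite T] : Language.IsContextFree ({w | w ≠ w₀} : Language T) := by
  have h1 : ({w | w ≠ w₀} : Language T) = {w | (neDs w₀).Der (some 0) w} := by
    ext w
    change w ≠ w₀ ↔ (neDs w₀).Der (some 0) w
    constructor
    · intro hw
      exact ne_complete w₀ w 0 (by simpa using hw)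
    · intro hd
      have := ne_sound w₀ _ _ hd 0 rfl
      simpa using this
  rw [h1]
  exact isContextFree_of_ds (neDs w₀) _

end ne

end Pool.Agent.helper83.HS
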